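import Mathlib

set_option autoImplicit false

/-! Roy's countable connected Urysohn space. -/

namespace Pool.Agent.H.MP_f6a885_lc

open Topology TopologicalSpace Set

def R : Type := Option (ℕ × (ℕ →₀ ℤ))

instance : Countable R := inferInstanceAs (Countable (Option (ℕ × (ℕ →₀ ℤ))))
instance : Nontrivial R := inferInstanceAs (Nontrivial (Option (ℕ × (ℕ →₀ ℤ))))

def io (p : ℕ × (ℕ →₀ ℤ)) (i : ℕ) : ℤ := p.1 + p.2 i

theorem io_inj {p q : ℕ × (ℕ →₀ ℤ)} (h : ∀ i, io p i = io q i) : p = q := by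
  obtain ⟨i, hi⟩ := Infinite.exists_notMem_finset (p.2.support ∪ q.2.support)
  simp only [Finset.mem_union, Finsupp.mem_support_iff, not_or, not_not] at hi
  have a := h i
  simp only [io, hi.1, hi.2] at a h
  exact Prod.ext (by omega) (Finsupp.ext fun j => by have := h j; omega)

theorem io_dense (p : ℕ × (ℕ →₀ ℤ)) (k n : ℕ) : ∃ g, ∀ i < k, io (n, g) i = io p i :=
  ⟨Finsupp.onFinset (Finset.range k) (fun i => if i < k then io p i - n else 0) fun i h => by
    by_contra c; simp_all, fun i hi => by simp [io, hi]⟩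

def Bs : R → ℕ → Set R
  | none, k => {y | ∀ q, y = some q → 2 * k ≤ q.1}
  | some p, k => {y | ∃ q, y = some q ∧ (∀ i < k, io q i = io p i) ∧
      (q.1 = p.1 ∨ p.1 % 2 = 1 ∧ (q.1 + 1 = p.1 ∨ q.1 = p.1 + 1))}

theorem Bs_self (x : R) (k : ℕ) : x ∈ Bs x k := by
  cases x with
  | none => exact fun _ h => nomatch h
  | some p => exact ⟨p, rfl, fun _ _ => rfl, .inl rfl⟩

theorem Bs_anti (x : R) {k l : ℕ} (h : k ≤ l) : Bs x l ⊆ Bs x k := by
  cases x with
  | none => exact fun y a q e => by have := a q e; omega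
  | some p => exact fun y ⟨q, a, b, c⟩ => ⟨q, a, fun i hi => b i (by omega), c⟩

theorem Bs_sub {x y : R} {k : ℕ} (h : y ∈ Bs x k) : Bs y k ⊆ Bs x k := by
  rcases x with _ | p <;> rcases y with _ | q
  · exact subset_rfl
  · rintro _ ⟨r, rfl, -, a⟩ _ ⟨⟩
    have := h q rfl
    omega
  · exact nomatch h
  · obtain ⟨_, ⟨⟩, a, b⟩ := h
    rintro _ ⟨r, rfl, c, d⟩
    exact ⟨r, rfl, fun i hi => (c i hi).trans (a i hi), by omega⟩

instance : TopologicalSpace R where
  IsOpen U := ∀ x ∈ U, ∃ k, Bs x k ⊆ U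
  isOpen_univ _ _ := ⟨0, subset_univ _⟩
  isOpen_inter _ _ a b x h := let ⟨k, c⟩ := a x h.1; let ⟨l, d⟩ := b x h.2
    ⟨k + l, subset_inter ((Bs_anti x (by omega)).trans c) ((Bs_anti x (by omega)).trans d)⟩
  isOpen_sUnion _ a x := fun ⟨U, b, c⟩ => (a U b x c).imp fun _ d => subset_sUnion_of_subset _ _ d b

theorem op_iff {U : Set R} : IsOpen U ↔ ∀ x ∈ U, ∃ k, Bs x k ⊆ U := Iff.rfl

theorem Bs_open (x : R) (k : ℕ) : IsOpen (Bs x k) := op_iff.2 fun _ h => ⟨k, Bs_sub h⟩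

instance : SecondCountableTopology R :=
  (isTopologicalBasis_of_isOpen_of_nhds (s := range fun z : R × ℕ => Bs z.1 z.2)
    (forall_mem_range.2 fun _ => Bs_open _ _) fun x _ a b => (op_iff.1 b x a).elim fun k c =>
      ⟨_, ⟨(x, k), rfl⟩, Bs_self x k, c⟩).secondCountableTopology (countable_range _)

theorem cl_some {p : ℕ × (ℕ →₀ ℤ)} {k : ℕ} {y : R} (h : y ∈ closure (Bs (some p) k)) :
    ∃ q, y = some q ∧ (∀ i < k, io q i = io p i) ∧ q.1 ≤ p.1 + 2 := by
  obtain ⟨z, a, r, rfl, b, c⟩ := mem_closure_iff.1 h _ (Bs_open y (k + p.1 + 1)) (Bs_self _ _)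
  rcases y with _ | q
  · have := a r rfl
    omega
  · obtain ⟨_, ⟨⟩, d, e⟩ := a
    exact ⟨q, rfl, fun i hi => (d i (by omega)).symm.trans (b i hi), by omega⟩

theorem cl_none {k : ℕ} {q : ℕ × (ℕ →₀ ℤ)} {y : R} (e : y = some q) (h : y ∈ closure (Bs none k)) :
    2 * k ≤ q.1 + 1 := by
  obtain ⟨z, ⟨r, rfl, -, b⟩, c⟩ := mem_closure_iff.1 h _ (Bs_open (some q) 0) (e ▸ Bs_self _ _)
  have := c r rfl
  omega

theorem ury {x y : R} (h : x ≠ y) : ∃ k, Disjoint (closure (Bs x k)) (closure (Bs y k)) := by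
  have a : ∀ p : ℕ × (ℕ →₀ ℤ),
      Disjoint (closure (Bs none (p.1 + 2))) (closure (Bs (some p) (p.1 + 2))) := fun p =>
    disjoint_left.2 fun z a b => by
      obtain ⟨q, e, -, c⟩ := cl_some b
      have := cl_none e a
      omega
  rcases x with _ | p <;> rcases y with _ | q
  · exact absurd rfl h
  · exact ⟨_, a q⟩
  · exact ⟨_, (a p).symm⟩
  · obtain ⟨i, hi⟩ := not_forall.1 fun c => h (congrArg some (io_inj c))
    refine ⟨i + 1, disjoint_left.2 fun z a b => hi ?_⟩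
    obtain ⟨r, rfl, c, -⟩ := cl_some a
    obtain ⟨_, ⟨⟩, d, -⟩ := cl_some b
    exact (c i (by omega)).symm.trans (d i (by omega))

instance : PreconnectedSpace R := by
  have key : ∀ A : Set R, IsClopen A → none ∈ A → A = univ := fun A h a => by
    obtain ⟨k, hk⟩ := op_iff.1 h.2 _ a
    have s : ∀ n, (∀ g, some (n + 1, g) ∈ A) → ∀ g, some (n, g) ∈ A := fun n b g => by
      refine h.1.closure_subset (mem_closure_iff.2 fun U c d => ?_)
      obtain ⟨l, hl⟩ := op_iff.1 c _ d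
      obtain ⟨f, hf⟩ := io_dense (n, g) l (n + 1)
      by_cases e : n % 2 = 1
      · exact ⟨_, hl ⟨_, rfl, hf, .inr ⟨e, .inr rfl⟩⟩, b f⟩
      · obtain ⟨m, hm⟩ := op_iff.1 h.2 _ (b f)
        obtain ⟨j, hj⟩ := io_dense (n + 1, f) (l + m) n
        exact ⟨some (n, j), hl ⟨_, rfl, fun i hi => (hj i (by omega)).trans (hf i hi), .inl rfl⟩,
          hm ⟨_, rfl, fun i hi => hj i (by omega), .inr ⟨by dsimp only; omega, .inl rfl⟩⟩⟩
    have t : ∀ n g, some (n, g) ∈ A := fun n => by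
      refine Nat.decreasingInduction' (m := n) (n := n + 2 * k) (fun m _ _ => s m) (by omega)
        fun g => hk ?_
      rintro _ ⟨⟩
      exact Nat.le_add_left _ _
    exact eq_univ_of_forall fun x => x.rec a fun p => t p.1 p.2
  refine ⟨isPreconnected_of_forall_constant fun f hf x _ y _ => ?_⟩
  have := key (f ⁻¹' {f none}) ((isClopen_discrete _).preimage (continuousOn_univ.1 hf)) rfl
  exact (show x ∈ f ⁻¹' {f none} from this ▸ trivial).trans
    (show y ∈ f ⁻¹' {f none} from this ▸ trivial).symm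

instance : T25Space (ℕ → R) := ⟨fun x y h => by
  obtain ⟨j, hj⟩ := Function.ne_iff.1 h
  obtain ⟨k, d⟩ := ury hj
  have c := continuous_apply (A := fun _ : ℕ => R) j
  refine ((𝓝 x).basis_sets.lift'_closure.disjoint_iff (𝓝 y).basis_sets.lift'_closure).2
    ⟨_, c.continuousAt ((Bs_open _ k).mem_nhds (Bs_self _ k)), _,
      c.continuousAt ((Bs_open _ k).mem_nhds (Bs_self _ k)), (d.preimage fun z : ℕ → R => z j).mono
        (c.closure_preimage_subset _) (c.closure_preimage_subset _)⟩⟩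

end Pool.Agent.H.MP_f6a885_lc
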