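import Pool.Agent.H.MP_f6a885_lc.A
import Pool.Agent.H.MP_4f977f_lc.A

set_option autoImplicit false

/-! The countable power of Roy's space is not a countable union of submetrizable subspaces. -/

namespace Pool.Agent.H.MP_f6a885_lc

open Topology TopologicalSpace Set Pool.Agent.H.MP_73efbe_lc Pool.Agent.H.MP_4f977f_lc

theorem cyl {W : Set (ℕ → R)} (h : IsOpen W) {x : ℕ → R} (k : x ∈ W) :
    ∃ m, ∀ y : ℕ → R, (∀ i < m, y i = x i) → y ∈ W := by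
  obtain ⟨I, u, a, b⟩ := isOpen_pi_iff.1 h x k
  obtain ⟨m, hm⟩ := I.bddAbove
  exact ⟨m + 1, fun y hy => b fun i hi => hy i (Nat.lt_succ_of_le (hm hi)) ▸ (a i hi).2⟩

theorem const {e : ℕ → R} (he : Function.Surjective e) {Z : Set (ℕ → R)} {f : (ℕ → R) → ℝ}
    (hf : ∀ x ∈ Z, ∀ O ∈ 𝓝 (f x), ∃ W, IsOpen W ∧ x ∈ W ∧ ∀ z ∈ Z, z ∈ W → f z ∈ O) {u : ℕ → ℕ} {n : ℕ}
    (hd : ∀ v m, Ag n u v → ∃ w, Ag m v w ∧ e ∘ w ∈ Z) {x y : ℕ → R} (hx : x ∈ Z) (hy : y ∈ Z)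
    (ax : ∀ i < n, x i = e (u i)) (ay : ∀ i < n, y i = e (u i)) : ¬ f x < f y := fun c => by
  choose! w hw using fun (σ : List ℕ) (a : ∃ w, Ag σ.length (σ.getD · 0) w ∧ e ∘ w ∈ Z) => a
  obtain ⟨r, r1, r2, r3⟩ := ((countable_range fun σ => f (e ∘ w σ)).dense_compl ℝ).exists_between c
  let A := fun O : Set ℝ => {x | ∃ W, IsOpen W ∧ x ∈ W ∧ ∀ z ∈ Z, z ∈ W → f z ∈ O}
  have o : ∀ O, IsOpen (A O) := fun O => isOpen_iff_forall_mem_open.2 fun x ⟨W, a, b, c⟩ =>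
    ⟨W, fun y d => ⟨W, a, d, c⟩, a, b⟩
  obtain ⟨m1, h1⟩ := cyl (o _) (hf x hx _ (Iio_mem_nhds r2))
  obtain ⟨m2, h2⟩ := cyl (o _) (hf y hy _ (Ioi_mem_nhds r3))
  set m := n + m1 + m2 with hm
  obtain ⟨t, ht⟩ := baire fun (τ : List ℕ) t => Ag n u (τ.getD · 0) →
    (e ∘ fun i => if i < m then τ.getD i 0 else t i) ∈ A (Iio r) ∪ A (Ioi r)
  replace ht : ∀ τ : List ℕ, Ag n u (τ.getD · 0) →
      (e ∘ fun i => if i < m then τ.getD i 0 else t i) ∈ A (Iio r) ∪ A (Ioi r) := fun τ a => by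
    obtain ⟨k, b | b⟩ := ht τ
    · exact b t (fun _ _ => rfl) a
    obtain ⟨v, v1, v2⟩ := hd (fun i => if i < m then τ.getD i 0 else t i) (m + k) fun i hi =>
      (if_pos (by omega)).trans (a i hi)
    obtain ⟨c1, c2⟩ := hw ((List.range (m + k)).map v) ⟨v, fun i hi => by
      simp only [List.length_map, List.length_range] at hi; simp [hi], v2⟩
    set z := w ((List.range (m + k)).map v)
    replace c1 : ∀ i < m + k, z i = if i < m then τ.getD i 0 else t i := fun i hi =>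
      (c1 i (by simpa using hi)).trans (by simpa [hi] using v1 i hi)
    have : e ∘ z ∈ A (Iio r) ∪ A (Ioi r) := (lt_or_gt_of_ne fun q => r1 ⟨_, q⟩).imp
      (fun q => hf _ c2 _ (Iio_mem_nhds q)) fun q => hf _ c2 _ (Ioi_mem_nhds q)
    obtain ⟨j, hj⟩ := cyl ((o _).union (o _)) this
    obtain ⟨s, s1, s2⟩ := b (fun i => if i < m then t i else z i) j fun i hi => by
      dsimp only
      split_ifs with q
      exacts [rfl, (c1 i (by omega)).trans (if_neg q)]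
    refine absurd (fun _ => hj _ fun i hi => congrArg e ?_) s2
    split_ifs with q
    exacts [((c1 i (by omega)).trans (if_pos q)).symm, (s1 i hi).trans (if_neg q)]
  let S := fun i => if i < n then {e (u i)} else if i < m then univ else {e (t i)}
  have p : ∀ x ∈ univ.pi S, ∃ τ : List ℕ, Ag n u (τ.getD · 0) ∧
      x = e ∘ fun i => if i < m then τ.getD i 0 else t i := fun x hx => by
    refine ⟨(List.range m).map fun i => if i < n then u i else Function.surjInv he (x i),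
      fun i hi => by simp [hi, show i < m by omega], funext fun i => ?_⟩
    have := hx i trivial
    by_cases a : i < n
    · simpa [S, a, show i < m by omega] using this
    by_cases b : i < m
    · simp [a, b, Function.surjInv_eq]
    · simpa [S, a, b] using this
  have q : ∀ x : ℕ → R, (∀ i < n, x i = e (u i)) →
      (fun i => if i < m then x i else e (t i)) ∈ univ.pi S := fun x a i _ => by
    by_cases b : i < n
    · simp [S, b, show i < m by omega, a i b]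
    · by_cases c : i < m <;> simp [S, b, c]
  obtain ⟨z, a, ⟨W, b1, b2, b3⟩, V, c1, c2, c3⟩ := isPreconnected_univ_pi (s := S) (fun i => by
      simp only [S]
      split_ifs
      exacts [isPreconnected_singleton, isPreconnected_univ, isPreconnected_singleton])
    _ _ (o (Iio r)) (o (Ioi r)) (fun z hz => (p z hz).elim fun τ a => a.2 ▸ ht τ a.1)
    ⟨_, q x ax, h1 _ fun i hi => if_pos (by omega)⟩ ⟨_, q y ay, h2 _ fun i hi => if_pos (by omega)⟩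
  obtain ⟨τ, d, rfl⟩ := p z a
  obtain ⟨j, hj⟩ := cyl (b1.inter c1) ⟨b2, c2⟩
  obtain ⟨v, v1, v2⟩ := hd (fun i => if i < m then τ.getD i 0 else t i) j fun i hi =>
    (if_pos (by omega)).trans (d i hi)
  have := hj (e ∘ v) fun i hi => congrArg e (v1 i hi)
  exact lt_asymm (mem_Iio.1 (b3 _ v2 this.1)) (mem_Ioi.1 (c3 _ v2 this.2))

theorem sub {Y : Type} {t s : TopologicalSpace Y} (hs : t ≤ s) (hm : @MetrizableSpace Y s) (y : Y) :
    ∃ d : Y → ℝ, Continuous[t, _] d ∧ d y = 0 ∧ ∀ z, z ≠ y → 0 < d z := by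
  let m := @metrizableSpaceMetric Y s hm
  exact ⟨fun z => dist z y, continuous_le_dom hs
    (@Continuous.dist _ _ _ s _ _ continuous_id (@continuous_const _ _ s _ _)),
      dist_self _, fun _ => dist_pos.2⟩

theorem main {β : ℕ → Set (ℕ → R)} (hβ : IsTopologicalBasis (range β)) {Y : Type}
    [t : TopologicalSpace Y] {γ : ℕ → Set Y} (h : t = generateFrom (range γ))
    (hs : ∀ y, ∃ d : Y → ℝ, Continuous d ∧ d y = 0 ∧ ∀ z, z ≠ y → 0 < d z) : ∃ x, ∀ y (W V : ℕ × List ℕ → Prop), REPred W → REPred V →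
      (∀ n, y ∈ γ n ↔ ∃ l, W (n, l) ∧ ∀ e ∈ l, x ∈ β e) →
        ¬ ∀ n, x ∈ β n ↔ ∃ l, V (n, l) ∧ ∀ e ∈ l, y ∈ γ e := by
  have := @cnt_re (ℕ × List ℕ) _
  obtain ⟨e, he⟩ := exists_surjective_nat R
  obtain ⟨u, hu⟩ := baire fun
    (W : {W : ℕ × List ℕ → Prop // REPred W} × {W : ℕ × List ℕ → Prop // REPred W}) u =>
      ¬ ∃ y, (∀ n, y ∈ γ n ↔ ∃ l, W.1.1 (n, l) ∧ ∀ i ∈ l, e ∘ u ∈ β i) ∧
        ∀ n, e ∘ u ∈ β n ↔ ∃ l, W.2.1 (n, l) ∧ ∀ e ∈ l, y ∈ γ e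
  refine ⟨e ∘ u, fun y W V c1 c2 k1 k2 => ?_⟩
  obtain ⟨n, a | a⟩ := hu (⟨_, c1⟩, ⟨_, c2⟩)
  · exact a u (fun _ _ => rfl) ⟨y, k1, k2⟩
  simp only [not_not] at a
  have : Nonempty Y := ⟨y⟩
  choose! g hg using fun (x : ℕ → R) (a : ∃ y, (∀ n, y ∈ γ n ↔ ∃ l, W (n, l) ∧ ∀ i ∈ l, x ∈ β i) ∧
    ∀ n, x ∈ β n ↔ ∃ l, V (n, l) ∧ ∀ e ∈ l, y ∈ γ e) => a
  obtain ⟨p, hp⟩ := exists_ne (e (u n))
  obtain ⟨p, rfl⟩ := he p
  obtain ⟨w, w1, w2⟩ := a (fun i => if i = n then p else u i) (n + 1) fun i hi => if_neg hi.ne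
  obtain ⟨d, d1, d2, d3⟩ := hs (g (e ∘ u))
  refine const he (Z := {x | ∃ y, (∀ n, y ∈ γ n ↔ ∃ l, W (n, l) ∧ ∀ i ∈ l, x ∈ β i) ∧
    ∀ n, x ∈ β n ↔ ∃ l, V (n, l) ∧ ∀ e ∈ l, y ∈ γ e}) (f := d ∘ g) (fun x hx O hO => ?_) a ⟨y, k1, k2⟩ w2 (fun _ _ => rfl)
    (fun i hi => congrArg e ((w1 i (by omega)).trans (if_neg hi.ne))) (d2.trans_lt (d3 _ fun q => hp ?_))
  · obtain ⟨l, b1, b2⟩ := pull h (fun x hx => (hg x hx).1) hx (d1.continuousAt hO)
    exact ⟨⋂ i ∈ {i | i ∈ l}, β i, l.finite_toSet.isOpen_biInter fun i _ => hβ.isOpen ⟨i, rfl⟩,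
      mem_iInter₂.2 b1, fun z hz c => b2 z hz (mem_iInter₂.1 c)⟩
  · have : e ∘ w = e ∘ u := inseparable_iff_eq.1 (hβ.inseparable_iff.2 (forall_mem_range.2 fun i => by
      rw [(hg _ w2).2, (hg _ ⟨y, k1, k2⟩).2, q]))
    simpa [w1 n n.lt_succ_self] using congrFun this n

end Pool.Agent.H.MP_f6a885_lc
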